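import Pool.Agent.H33.HC.TB
import Pool.Agent.H45.HH.CO1

/-!
CO1C: the sum over `n` with the coefficients at the primes of `a`, complex shifts (row CO1C of the
board hcz_modules, MP_347b49_nt).
-/

set_option autoImplicit false

open NumberField Complex Filter Topology MeasureTheory
open scoped ContDiff nonZeroDivisors

namespace Pool.Agent.H89.HC

open Pool.Agent.H33.HC Pool.Agent.H33.HH Pool.Agent.H28.RC Pool.Agent.H37.CV Pool.Agent.H57.HH
  Pool.Agent.H3.CV Pool.Agent.H45.HH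

section
variable {K : Type} [Field K] [NumberField K]

open scoped Classical in
theorem coc_term {P : ℝ} {t : Finset (PrI K)} (ht : ∀ p ∈ t, P < np p) (f : ℝ → ℂ) (w : ℂ)
    (hs : Summable fun I : NI K => ‖((nm I.1 : ℝ) : ℂ) ^ (-1 - w) * f (nS np t * nm I.1)‖) :
    Summable (fun n : NI K => if Cp P n.1 then
        ((if idS t ∣ n.1 then nS np t else 0 : ℝ) : ℂ) *
          (((nm n.1 : ℝ) : ℂ) ^ (-1 - w) * f (nm n.1)) else 0) ∧
      ∑' n : NI K, (if Cp P n.1 then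
        ((if idS t ∣ n.1 then nS np t else 0 : ℝ) : ℂ) *
          (((nm n.1 : ℝ) : ℂ) ^ (-1 - w) * f (nm n.1)) else 0) =
      ((nS np t : ℝ) : ℂ) ^ (-w) *
        sumZ (K := K) P (fun n => ((nm n : ℝ) : ℂ) ^ (-1 - w) * f (nS np t * nm n)) := by
  set u : NI K → ℂ := fun n => if Cp P n.1 then
        ((if idS t ∣ n.1 then nS np t else 0 : ℝ) : ℂ) *
          (((nm n.1 : ℝ) : ℂ) ^ (-1 - w) * f (nm n.1)) else 0 with hu
  have hJ : idS t ≠ ⊥ := idS_ne t
  have hinj := mu_inj (idS t) hJ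
  have hpos : 0 < nS np t := lt_of_lt_of_le one_pos (one_le_nS t)
  have hcomp : u ∘ mu (idS t) hJ = fun n : NI K => ((nS np t : ℝ) : ℂ) ^ (-w) *
      if Cp P n.1 then ((nm n.1 : ℝ) : ℂ) ^ (-1 - w) * f (nS np t * nm n.1) else 0 := by
    funext n
    show (if Cp P (idS t * n.1) then ((if idS t ∣ idS t * n.1 then nS np t else 0 : ℝ) : ℂ) *
      (((nm (idS t * n.1) : ℝ) : ℂ) ^ (-1 - w) * f (nm (idS t * n.1))) else 0) = _
    by_cases hc : Cp P n.1
    · rw [if_pos ((cp_mul ht n.1).2 hc), if_pos hc, if_pos (dvd_mul_right _ _), nm_mul, nm_idS]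
      have hn0 : 0 ≤ nm n.1 := Nat.cast_nonneg _
      have hne : ((nS np t : ℝ) : ℂ) ≠ 0 := by exact_mod_cast hpos.ne'
      have e1 : ((nS np t * nm n.1 : ℝ) : ℂ) ^ (-1 - w) =
          ((nS np t : ℝ) : ℂ) ^ (-1 - w) * ((nm n.1 : ℝ) : ℂ) ^ (-1 - w) := by
        rw [Complex.ofReal_mul, Complex.mul_cpow_ofReal_nonneg hpos.le hn0]
      have e2 : ((nS np t : ℝ) : ℂ) * ((nS np t : ℝ) : ℂ) ^ (-1 - w) =
          ((nS np t : ℝ) : ℂ) ^ (-w) := by
        have e3 : -w = 1 + (-1 - w) := by ring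
        rw [e3, Complex.cpow_add _ _ hne, Complex.cpow_one]
      rw [e1, ← e2]
      ring
    · rw [if_neg (fun k => hc ((cp_mul ht n.1).1 k)), if_neg hc, mul_zero]
  have hr : ∀ n, n ∉ Set.range (mu (idS t) hJ) → u n = 0 := by
    intro n hn
    have h1 : ¬ idS t ∣ n.1 := by
      rintro ⟨m, hm⟩
      have hm0 : m ≠ ⊥ := by
        rintro rfl
        exact n.2 (by rw [hm]; exact mul_zero _)
      exact hn ⟨⟨m, hm0⟩, Subtype.ext hm.symm⟩
    show (if Cp P n.1 then ((if idS t ∣ n.1 then nS np t else 0 : ℝ) : ℂ) *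
          (((nm n.1 : ℝ) : ℂ) ^ (-1 - w) * f (nm n.1)) else 0) = 0
    rw [if_neg h1, Complex.ofReal_zero, zero_mul, ite_self]
  have hs1 : Summable (u ∘ mu (idS t) hJ) := by
    rw [hcomp]
    refine Summable.mul_left _ ?_
    refine Summable.of_norm_bounded hs fun n => ?_
    by_cases hc : Cp P n.1
    · rw [if_pos hc]
    · rw [if_neg hc, norm_zero]
      exact norm_nonneg _
  refine ⟨(hinj.summable_iff hr).1 hs1, ?_⟩
  have h2 : ∑' n, u (mu (idS t) hJ n) = ∑' n, u n := by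
    refine hinj.tsum_eq ?_
    intro n hn
    by_contra hk
    exact hn (hr n hk)
  rw [← h2]
  have h4 := congrArg tsum hcomp
  rw [tsum_mul_left] at h4
  exact h4

theorem coc_alt {α : Type} [DecidableEq α] (s : Finset α) (h : s ≠ ∅) :
    ∑ t ∈ s.powerset, (-1 : ℂ) ^ (s \ t).card = 0 := by
  have h1 := Finset.prod_add (fun _ : α => (1 : ℂ)) (fun _ => (-1 : ℂ)) s
  simp only [Finset.prod_const, one_pow, one_mul] at h1
  rw [← h1, add_neg_cancel, zero_pow]
  exact Finset.card_ne_zero.2 (Finset.nonempty_iff_ne_empty.2 h)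

theorem coc_prod [DecidableEq (PrI K)] (s : Finset (PrI K)) (w : ℂ) :
    ∏ p ∈ s, (((np p : ℝ) : ℂ) ^ (-w) - 1) =
      ∑ t ∈ s.powerset, (-1 : ℂ) ^ (s \ t).card * ((nS np t : ℝ) : ℂ) ^ (-w) := by
  simp only [sub_eq_add_neg]
  rw [Finset.prod_add]
  refine Finset.sum_congr rfl fun t _ => ?_
  rw [Finset.prod_const, mul_comm]
  congr 1
  have : ∀ t : Finset (PrI K), ∏ p ∈ t, ((np p : ℝ) : ℂ) ^ (-w) =
      ((nS np t : ℝ) : ℂ) ^ (-w) := by
    intro t
    induction t using Finset.induction_on with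
    | empty => simp [nS]
    | insert a t ha ih =>
      have hna : 0 ≤ np a := by
        have := np_two a
        linarith
      have hnt : 0 ≤ nS np t := by
        have := one_le_nS t
        linarith
      have h1 : nS np (insert a t) = np a * nS np t := by
        unfold nS
        exact Finset.prod_insert ha
      rw [Finset.prod_insert ha, ih, h1, Complex.ofReal_mul,
        Complex.mul_cpow_ofReal_nonneg hna hnt]
  exact this t

end

open scoped Classical in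
/-- CO1C -/
theorem pf_CO1C (h1 : T_NSC) (h2 : T_SSC) (_h3 : Pool.Agent.H33.HH.T_IDF) : T_CO1C := by
  intro K _ _ _ P
  obtain ⟨C, hC, hN⟩ := h1 K P
  refine ⟨C, hC, ?_⟩
  intro f f' T A y w hA hy hsl hw0 hw S hS S' hS' R hR hT
  set s := R \ S' with hs
  have hT1 : 1 ≤ T := le_trans (one_le_nS s) hT
  have hT0 : 0 < T := by linarith
  have hsub : ∀ t ∈ s.powerset, t ⊆ s := fun t ht => Finset.mem_powerset.1 ht
  have hpS : ∀ p ∈ s, P < np p := by
    intro p hp
    have hp1 : p ∈ R := (Finset.mem_sdiff.1 hp).1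
    exact ((mem_DP.1 hS).1 p (Finset.mem_powerset.1 hR hp1)).1
  have hle : ∀ t ∈ s.powerset, nS np t ≤ nS np s := by
    intro t ht
    have h3 : nS np s = nS np (s \ t) * nS np t := by
      unfold nS
      exact (Finset.prod_sdiff (hsub t ht)).symm
    rw [h3]
    have h4 := one_le_nS (s \ t)
    have h5 := one_le_nS t
    nlinarith
  have hpos : ∀ t : Finset (PrI K), 0 < nS np t := fun t => lt_of_lt_of_le one_pos (one_le_nS t)
  obtain ⟨V, hV⟩ : ∃ V : ℂ, V = (rk K P : ℂ) * (T : ℂ) ^ (-w) *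
    (1 / w - Lw w (fun v => f (T * v))) := ⟨_, rfl⟩
  have hNt : ∀ t ∈ s.powerset,
      Summable (fun I : NI K => ‖((nm I.1 : ℝ) : ℂ) ^ (-1 - w) * f (nS np t * nm I.1)‖) ∧
      ‖((nS np t : ℝ) : ℂ) ^ (-w) *
        sumZ (K := K) P (fun n => ((nm n : ℝ) : ℂ) ^ (-1 - w) * f (nS np t * nm n)) -
        (((nS np t : ℝ) : ℂ) ^ (-w) * Zc K P w - V)‖ ≤
        nS np s ^ ‖w‖ * (C * (1 + A) * (T / nS np s) ^ (-(1 / 8) : ℝ)) := by
    intro t ht
    have h3 : 1 ≤ T / nS np t := by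
      rw [one_le_div (hpos t)]
      exact (hle t ht).trans hT
    obtain ⟨h4, h5⟩ := hN _ _ (T / nS np t) A w h3 hA
      (h2 f f' T A (nS np t) hT0 (hpos t) hA hsl) hw0 hw
    refine ⟨h4, ?_⟩
    have h6 : (fun u => f (nS np t * (T / nS np t * u))) = fun u => f (T * u) := by
      funext u
      rw [← mul_assoc, mul_div_cancel₀ _ (hpos t).ne']
    simp only [h6] at h5
    have h7 : ((nS np t : ℝ) : ℂ) ^ (-w) * ((T / nS np t : ℝ) : ℂ) ^ (-w) = (T : ℂ) ^ (-w) := by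
      rw [← Complex.mul_cpow_ofReal_nonneg (hpos t).le (by positivity), ← Complex.ofReal_mul,
        mul_div_cancel₀ _ (hpos t).ne']
    have h8 : ((nS np t : ℝ) : ℂ) ^ (-w) *
        sumZ (K := K) P (fun n => ((nm n : ℝ) : ℂ) ^ (-1 - w) * f (nS np t * nm n)) -
        (((nS np t : ℝ) : ℂ) ^ (-w) * Zc K P w - V) = ((nS np t : ℝ) : ℂ) ^ (-w) *
        (sumZ (K := K) P (fun n => ((nm n : ℝ) : ℂ) ^ (-1 - w) * f (nS np t * nm n)) -
          (Zc K P w - (rk K P : ℂ) * ((T / nS np t : ℝ) : ℂ) ^ (-w) *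
            (1 / w - Lw w (fun v => f (T * v))))) := by
      rw [hV, ← h7]
      ring
    rw [h8, norm_mul]
    have h9 : ‖((nS np t : ℝ) : ℂ) ^ (-w)‖ ≤ nS np s ^ ‖w‖ := by
      rw [Complex.norm_cpow_eq_rpow_re_of_pos (hpos t)]
      calc nS np t ^ (-w).re ≤ nS np t ^ ‖w‖ := by
            apply Real.rpow_le_rpow_of_exponent_le (one_le_nS t)
            calc (-w).re ≤ ‖-w‖ := Complex.re_le_norm _
              _ = ‖w‖ := norm_neg w
        _ ≤ nS np s ^ ‖w‖ := Real.rpow_le_rpow (hpos t).le (hle t ht) (norm_nonneg _)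
    refine mul_le_mul h9 (h5.trans ?_) (norm_nonneg _) (Real.rpow_nonneg (hpos s).le _)
    refine mul_le_mul_of_nonneg_left ?_ (mul_nonneg hC (by linarith))
    refine Real.rpow_le_rpow_of_nonpos (div_pos hT0 (hpos s)) ?_ (by norm_num)
    exact div_le_div_of_nonneg_left hT0.le (hpos t) (hle t ht)
  -- the expansion
  have hexp : sumZ (K := K) P (fun n => ((ha R (idS S' * n) : ℝ) : ℂ) *
      (((nm n : ℝ) : ℂ) ^ (-1 - w) * f (nm n))) =
      ((fS np (R ∩ S') : ℝ) : ℂ) * ∑ t ∈ s.powerset, (-1 : ℂ) ^ (s \ t).card *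
        (((nS np t : ℝ) : ℂ) ^ (-w) *
          sumZ (K := K) P (fun n => ((nm n : ℝ) : ℂ) ^ (-1 - w) * f (nS np t * nm n))) := by
    have h3 : (fun I : NI K => if Cp P I.1 then ((ha R (idS S' * I.1) : ℝ) : ℂ) *
          (((nm I.1 : ℝ) : ℂ) ^ (-1 - w) * f (nm I.1)) else 0) =
        fun I : NI K => ((fS np (R ∩ S') : ℝ) : ℂ) * ∑ t ∈ s.powerset,
          (-1 : ℂ) ^ (s \ t).card *
          (if Cp P I.1 then ((if idS t ∣ I.1 then nS np t else 0 : ℝ) : ℂ) *
            (((nm I.1 : ℝ) : ℂ) ^ (-1 - w) * f (nm I.1)) else 0) := by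
      funext I
      by_cases hc : Cp P I.1
      · simp only [if_pos hc]
        rw [co_ha, Complex.ofReal_mul, Complex.ofReal_sum, mul_assoc, Finset.sum_mul]
        refine congrArg _ (Finset.sum_congr rfl fun t _ => ?_)
        rw [Complex.ofReal_mul, Complex.ofReal_pow, Complex.ofReal_neg, Complex.ofReal_one]
        ring
      · simp only [if_neg hc, mul_zero, Finset.sum_const_zero]
    unfold sumZ
    rw [h3, tsum_mul_left, Summable.tsum_finsetSum]
    · refine congrArg _ (Finset.sum_congr rfl fun t ht => ?_)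
      rw [tsum_mul_left, (coc_term (fun p hp => hpS p (hsub t ht hp)) f w (hNt t ht).1).2]
      rfl
    · intro t ht
      exact (coc_term (fun p hp => hpS p (hsub t ht hp)) f w (hNt t ht).1).1.mul_left _
  have hRS : (R ⊆ S') ↔ s = ∅ := by
    rw [hs]
    exact Finset.sdiff_eq_empty_iff_subset.symm
  have hval : (if R ⊆ S' then (rk K P : ℂ) * (T : ℂ) ^ (-w) *
        (1 / w - Lw w (fun v => f (T * v))) else 0) =
      ∑ t ∈ s.powerset, (-1 : ℂ) ^ (s \ t).card * V := by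
    rw [← hV, ← Finset.sum_mul]
    by_cases h5 : R ⊆ S'
    · rw [if_pos h5, hRS.1 h5]
      simp
    · rw [if_neg h5, coc_alt s (fun k => h5 (hRS.2 k)), zero_mul]
  have hfS : 0 ≤ fS np (R ∩ S') := by
    unfold fS
    refine Finset.prod_nonneg fun p _ => ?_
    have := np_two p
    linarith
  rw [hexp, hval, coc_prod]
  have h9 : ((fS np (R ∩ S') : ℝ) : ℂ) * ∑ t ∈ s.powerset, (-1 : ℂ) ^ (s \ t).card *
        (((nS np t : ℝ) : ℂ) ^ (-w) *
          sumZ (K := K) P (fun n => ((nm n : ℝ) : ℂ) ^ (-1 - w) * f (nS np t * nm n))) -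
      ((fS np (R ∩ S') : ℝ) : ℂ) * (Zc K P w *
        (∑ t ∈ s.powerset, (-1 : ℂ) ^ (s \ t).card * ((nS np t : ℝ) : ℂ) ^ (-w)) -
          ∑ t ∈ s.powerset, (-1 : ℂ) ^ (s \ t).card * V) =
      ((fS np (R ∩ S') : ℝ) : ℂ) * ∑ t ∈ s.powerset, (-1 : ℂ) ^ (s \ t).card *
        (((nS np t : ℝ) : ℂ) ^ (-w) *
        sumZ (K := K) P (fun n => ((nm n : ℝ) : ℂ) ^ (-1 - w) * f (nS np t * nm n)) -
        (((nS np t : ℝ) : ℂ) ^ (-w) * Zc K P w - V)) := by
    rw [← mul_sub, Finset.mul_sum, ← Finset.sum_sub_distrib, ← Finset.sum_sub_distrib]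
    refine congrArg _ (Finset.sum_congr rfl fun t _ => ?_)
    ring
  rw [h9, norm_mul, Complex.norm_of_nonneg hfS]
  have h10 : ‖∑ t ∈ s.powerset, (-1 : ℂ) ^ (s \ t).card *
        (((nS np t : ℝ) : ℂ) ^ (-w) *
        sumZ (K := K) P (fun n => ((nm n : ℝ) : ℂ) ^ (-1 - w) * f (nS np t * nm n)) -
        (((nS np t : ℝ) : ℂ) ^ (-w) * Zc K P w - V))‖ ≤
      2 ^ R.card * (nS np s ^ ‖w‖ * (C * (1 + A) * (T / nS np s) ^ (-(1 / 8) : ℝ))) := by
    refine (norm_sum_le _ _).trans ?_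
    refine (Finset.sum_le_card_nsmul _ _
      (nS np s ^ ‖w‖ * (C * (1 + A) * (T / nS np s) ^ (-(1 / 8) : ℝ))) fun t ht => ?_).trans ?_
    · rw [norm_mul, norm_pow, norm_neg, norm_one, one_pow, one_mul]
      exact (hNt t ht).2
    · rw [Finset.card_powerset, nsmul_eq_mul]
      refine mul_le_mul_of_nonneg_right ?_ ?_
      · rw [Nat.cast_pow, Nat.cast_ofNat]
        exact pow_le_pow_right₀ (by norm_num) (Finset.card_le_card Finset.sdiff_subset)
      · exact mul_nonneg (Real.rpow_nonneg (hpos s).le _)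
          (mul_nonneg (mul_nonneg hC (by linarith)) (Real.rpow_nonneg (div_pos hT0 (hpos s)).le _))
  refine (mul_le_mul_of_nonneg_left h10 hfS).trans (le_of_eq ?_)
  ring

end Pool.Agent.H89.HC
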